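import Mathlib

/-!
# Class functions on the symmetric group are determined by their sums over the Young subgroups
-/

set_option autoImplicit false

open scoped Classical

namespace Pool.Agent.V8H87.EB.SN

open Equiv Equiv.Perm Finset MvPolynomial

section

variable {α : Type} [Fintype α] [DecidableEq α]

lemma mem_supports (σ : Perm α) (T : Finset α) :
    T ∈ σ.cycleFactorsFinset.image Perm.support ↔
      ∃ x, σ x ≠ x ∧ T = univ.filter (fun y => σ.SameCycle x y) := by
  rw [mem_image]
  constructor
  · rintro ⟨f, hf, rfl⟩
    have hc := (mem_cycleFactorsFinset_iff.1 hf).1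
    obtain ⟨x, hx, -⟩ := hc
    have hx' : x ∈ f.support := mem_support.2 hx
    have he := cycle_is_cycleOf hx' hf
    have hxs : x ∈ σ.support := by
      have : f.cycleOf x = f.cycleOf x := rfl
      rw [mem_support, ← (mem_cycleFactorsFinset_iff.1 hf).2 x hx']
      exact hx
    refine ⟨x, mem_support.1 hxs, ?_⟩
    ext y
    rw [mem_filter, he, mem_support_cycleOf_iff]
    exact ⟨fun h => ⟨mem_univ _, h.1⟩, fun h => ⟨h.2, hxs⟩⟩
  · rintro ⟨x, hx, rfl⟩
    refine ⟨σ.cycleOf x, cycleOf_mem_cycleFactorsFinset_iff.2 (mem_support.2 hx), ?_⟩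
    ext y
    rw [mem_filter, mem_support_cycleOf_iff]
    exact ⟨fun h => ⟨mem_univ _, h.1⟩, fun h => ⟨h.2, mem_support.2 hx⟩⟩

lemma cycleType_eq_map (σ : Perm α) :
    σ.cycleType = (σ.cycleFactorsFinset.image Perm.support).val.map Finset.card := by
  have hinj : Set.InjOn Perm.support (σ.cycleFactorsFinset : Set (Perm α)) := by
    intro f hf g hg he
    by_contra hne
    have hd := (cycleFactorsFinset_pairwise_disjoint σ) hf hg hne
    have hds := hd.disjoint_support
    rw [he, disjoint_self, Finset.bot_eq_empty, support_eq_empty_iff] at hds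
    have hc := (mem_cycleFactorsFinset_iff.1 (Finset.mem_coe.1 hg)).1
    exact hc.ne_one hds
  rw [image_val_of_injOn hinj, Multiset.map_map]
  rfl

/-- the cycle type depends on the decomposition into orbits only -/
lemma cycleType_eq_of_sameCycle (v w : Perm α)
    (h : ∀ x y, v.SameCycle x y ↔ w.SameCycle x y) : v.cycleType = w.cycleType := by
  have hfix : ∀ (σ : Perm α) x, σ x ≠ x ↔ ∃ y, y ≠ x ∧ σ.SameCycle x y := by
    intro σ x
    constructor
    · intro hx
      exact ⟨σ x, hx, (SameCycle.refl σ x).apply_right⟩
    · rintro ⟨y, hy, hxy⟩ he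
      exact hy (hxy.eq_of_left he).symm
  rw [cycleType_eq_map, cycleType_eq_map]
  congr 2
  ext T
  rw [mem_supports, mem_supports]
  refine exists_congr fun x => ?_
  rw [hfix, hfix]
  simp_rw [h]

end

section

variable {E : Type} [Field E] [CharZero E] {n : ℕ}

/-- the number of pairs in the same orbit -/
noncomputable def mu (w : Perm (Fin n)) : ℕ :=
  (univ.filter (fun p : Fin n × Fin n => w.SameCycle p.1 p.2)).card

theorem class_zero (f : Perm (Fin n) → E) (hf : ∀ g x, f (x⁻¹ * g * x) = f g)
    (hT : ∀ c : Fin n → Fin n, ∑ w : Perm (Fin n), (if c ∘ w = c then f w else 0) = 0) :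
    ∀ w, f w = 0 := by
  have main : ∀ m : ℕ, ∀ w, mu w = m → f w = 0 := by
    intro m
    induction m using Nat.strong_induction_on with
    | _ m ih =>
    intro w hw
    let c : Fin n → Fin n := fun x => (Quotient.mk (SameCycle.setoid w) x).out
    have hc : ∀ x y, c x = c y ↔ w.SameCycle x y := by
      intro x y
      constructor
      · intro h
        have h1 : (Quotient.mk (SameCycle.setoid w) x) = Quotient.mk (SameCycle.setoid w) y := by
          rw [← Quotient.out_eq (Quotient.mk (SameCycle.setoid w) x),
            ← Quotient.out_eq (Quotient.mk (SameCycle.setoid w) y)]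
          exact congrArg _ h
        exact Quotient.exact h1
      · intro h
        have h1 : (Quotient.mk (SameCycle.setoid w) x) = Quotient.mk (SameCycle.setoid w) y :=
          Quotient.sound h
        exact congrArg Quotient.out h1
    have hsub : ∀ v : Perm (Fin n), c ∘ v = c → ∀ x y, v.SameCycle x y → w.SameCycle x y := by
      intro v hv x y hxy
      obtain ⟨i, rfl⟩ := hxy.exists_nat_pow_eq
      rw [← hc]
      clear hxy
      induction i with
      | zero => rfl
      | succ i ih =>
        rw [pow_succ']
        have := congrFun hv ((v ^ i) x)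
        exact ih.trans this.symm
    have hval : ∀ v : Perm (Fin n), c ∘ v = c → f v = if mu v = mu w then f w else 0 := by
      intro v hv
      have hs : univ.filter (fun p : Fin n × Fin n => v.SameCycle p.1 p.2) ⊆
          univ.filter (fun p : Fin n × Fin n => w.SameCycle p.1 p.2) := by
        intro p hp
        rw [mem_filter] at hp ⊢
        exact ⟨mem_univ _, hsub v hv _ _ hp.2⟩
      by_cases hm : mu v = mu w
      · rw [if_pos hm]
        have heq := Finset.eq_of_subset_of_card_le hs (le_of_eq hm.symm)
        have hct : v.cycleType = w.cycleType := by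
          apply cycleType_eq_of_sameCycle
          intro x y
          have := Finset.ext_iff.1 heq (x, y)
          rw [mem_filter, mem_filter] at this
          simpa using this
        obtain ⟨x, hx⟩ := isConj_iff.1 (isConj_iff_cycleType_eq.2 hct)
        rw [← hx]
        have := hf (x * v * x⁻¹) x
        rw [← this]
        congr 1
        group
      · rw [if_neg hm]
        refine ih (mu v) ?_ v rfl
        rw [← hw]
        exact lt_of_le_of_ne (Finset.card_le_card hs) hm
    have h0 := hT c
    rw [Finset.sum_congr rfl (g := fun v : Perm (Fin n) =>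
      if c ∘ v = c ∧ mu v = mu w then f w else 0) (by
        intro v _
        by_cases hv : c ∘ v = c
        · rw [if_pos hv, hval v hv]
          by_cases hm : mu v = mu w
          · rw [if_pos hm, if_pos ⟨hv, hm⟩]
          · rw [if_neg hm, if_neg (fun h => hm h.2)]
        · rw [if_neg hv, if_neg (fun h => hv h.1)]), Finset.sum_ite, Finset.sum_const_zero,
      add_zero, Finset.sum_const, nsmul_eq_mul] at h0
    refine (mul_eq_zero.1 h0).resolve_left (Nat.cast_ne_zero.2 ?_)
    rw [← Nat.pos_iff_ne_zero, Finset.card_pos]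
    refine ⟨w, ?_⟩
    rw [mem_filter]
    refine ⟨mem_univ _, ?_, rfl⟩
    funext x
    exact (hc _ _).2 ((SameCycle.refl w x).apply_left)
  exact fun w => main _ w rfl

/-! ### Polynomials -/

/-- the monomial of a colouring -/
noncomputable def mon {κ α : Type} [Fintype α] (E : Type) [CommSemiring E] (c : α → κ) :
    MvPolynomial κ E := ∏ i, X (c i)

/-- the exponents of the monomial of a colouring -/
noncomputable def cont {κ α : Type} [Fintype α] (c : α → κ) : κ →₀ ℕ :=
  ∑ i, Finsupp.single (c i) 1

lemma mon_eq {κ α : Type} [Fintype α] (E : Type) [CommSemiring E] (c : α → κ) :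
    mon E c = monomial (cont c) 1 := by
  unfold mon cont
  rw [monomial_sum_one]
  rfl

lemma cont_apply {κ α : Type} [Fintype α] (c : α → κ) (k : κ) :
    cont c k = (univ.filter (fun i => c i = k)).card := by
  unfold cont
  rw [Finsupp.finsetSum_apply, Finset.card_filter]
  exact Finset.sum_congr rfl fun i _ => by rw [Finsupp.single_apply]

lemma exists_perm_of_cont {κ α : Type} [Fintype α] (c d : α → κ)
    (h : cont c = cont d) : ∃ v : Perm α, c = d ∘ v := by
  have h1 : ∀ k, Nonempty ({i // c i = k} ≃ {i // d i = k}) := by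
    intro k
    have h2 := DFunLike.congr_fun h k
    rw [cont_apply, cont_apply, ← Fintype.card_subtype, ← Fintype.card_subtype] at h2
    exact ⟨Fintype.equivOfCardEq h2⟩
  let e := fun k => (h1 k).some
  let v : α ≃ α := (Equiv.sigmaFiberEquiv c).symm.trans
    ((Equiv.sigmaCongrRight fun k => (e k)).trans (Equiv.sigmaFiberEquiv d))
  refine ⟨v, ?_⟩
  funext i
  change c i = d ((e (c i) ⟨i, rfl⟩ : {j // d j = c i}) : α)
  exact (e (c i) ⟨i, rfl⟩).2.symm

lemma cont_comp {κ α : Type} [Fintype α] (c : α → κ) (v : Perm α) : cont (c ∘ v) = cont c := by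
  unfold cont
  exact Equiv.sum_comp v (fun i => Finsupp.single (c i) 1)

/-- the generating polynomial of a function on the symmetric group -/
noncomputable def Phi (f : Perm (Fin n) → E) : MvPolynomial (Fin n) E :=
  ∑ c : Fin n → Fin n, ∑ w : Perm (Fin n), if c ∘ w = c then f w • mon E c else 0

omit [CharZero E] in
lemma Phi_eq (f : Perm (Fin n) → E) : Phi f = ∑ c : Fin n → Fin n,
    (∑ w : Perm (Fin n), if c ∘ w = c then f w else 0) • mon E c := by
  unfold Phi
  refine Finset.sum_congr rfl fun c _ => ?_
  rw [Finset.sum_smul]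
  refine Finset.sum_congr rfl fun w _ => ?_
  split_ifs <;> simp

theorem Phi_inj (f : Perm (Fin n) → E) (hf : ∀ g x, f (x⁻¹ * g * x) = f g) (h : Phi f = 0) :
    ∀ w, f w = 0 := by
  apply class_zero f hf
  intro c₀
  set T : (Fin n → Fin n) → E := fun c => ∑ w : Perm (Fin n), if c ∘ w = c then f w else 0 with hT
  have hTv : ∀ (c : Fin n → Fin n) (v : Perm (Fin n)), T (c ∘ v) = T c := by
    intro c v
    simp only [hT]
    refine Eq.trans (Finset.sum_congr rfl fun w _ => ?_)
      (Equiv.sum_comp (MulAut.conj v).toEquiv (fun w => if c ∘ w = c then f w else 0))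
    change _ = if c ∘ ⇑(v * w * v⁻¹) = c then f (v * w * v⁻¹) else 0
    have e1 : f (v * w * v⁻¹) = f w := by
      have := hf w v⁻¹
      rwa [inv_inv] at this
    have e2 : (c ∘ v) ∘ w = c ∘ v ↔ c ∘ ⇑(v * w * v⁻¹) = c := by
      constructor
      · intro h
        funext x
        have := congrFun h (v⁻¹ x)
        simpa using this
      · intro h
        funext x
        have := congrFun h (v x)
        simpa using this
    rw [e1, if_congr e2 rfl rfl]
  have h1 := congrArg (coeff (cont c₀)) h
  rw [Phi_eq, coeff_sum, coeff_zero] at h1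
  rw [Finset.sum_congr rfl (g := fun c => if cont c = cont c₀ then T c₀ else 0) (by
    intro c _
    rw [coeff_smul, mon_eq, coeff_monomial]
    by_cases hc : cont c = cont c₀
    · rw [if_pos hc, if_pos hc, smul_eq_mul, mul_one]
      obtain ⟨v, rfl⟩ := exists_perm_of_cont c c₀ hc
      exact hTv c₀ v
    · rw [if_neg hc, if_neg hc, smul_zero]), Finset.sum_ite, Finset.sum_const_zero, add_zero,
    Finset.sum_const, nsmul_eq_mul] at h1
  refine (mul_eq_zero.1 h1).resolve_left (Nat.cast_ne_zero.2 ?_)
  rw [← Nat.pos_iff_ne_zero, Finset.card_pos]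
  exact ⟨c₀, by rw [mem_filter]; exact ⟨mem_univ _, rfl⟩⟩

end

end Pool.Agent.V8H87.EB.SN
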