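import Pool.Agent.V8H87.EB.SN.Pol

/-!
# Characters of subgroups of the symmetric group: induced characters
-/

set_option autoImplicit false

open scoped Classical

namespace Pool.Agent.V8H87.EB.SN

open Equiv Equiv.Perm Finset MvPolynomial

section

variable {E : Type} [Field E] [CharZero E]

lemma trace_nat {X : Type} [Fintype X] [DecidableEq X] (M : Matrix X X E) (h : M * M = M) :
    ∃ m : ℕ, M.trace = m := by
  have hi : IsIdempotentElem (Matrix.toLin' M) := by
    change (Matrix.toLin' M).comp (Matrix.toLin' M) = Matrix.toLin' M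
    rw [← Matrix.toLin'_mul, h]
  refine ⟨Module.finrank E (LinearMap.range (Matrix.toLin' M)), ?_⟩
  rw [← (LinearMap.IsIdempotentElem.isProj_range _ hi).trace, Matrix.trace_toLin'_eq]

variable (κ : Type) [Fintype κ]

/-- the coefficients of the characteristic are natural numbers -/
theorem coeff_PP {W α : Type} [Group W] [Fintype W] [Fintype α] [DecidableEq α]
    (ι : W →* Perm α) (φ : W →* Eˣ) (a : κ →₀ ℕ) : ∃ m : ℕ, coeff a (PP κ ι φ) = m := by
  have hW : (Nat.card W : E) ≠ 0 := Nat.cast_ne_zero.2 Nat.card_pos.ne'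
  let M : Matrix (α → κ) (α → κ) E := fun c d =>
    if cont c = a then (Nat.card W : E)⁻¹ * ∑ w : W, (if c ∘ ι w = d then (φ w : E) else 0) else 0
  have hM : M * M = M := by
    ext c d
    rw [Matrix.mul_apply]
    by_cases hc : cont c = a
    · have h1 : ∀ e, M c e * M e d = (Nat.card W : E)⁻¹ * ∑ w : W,
          (if c ∘ ι w = e then (φ w : E) else 0) * M e d := by
        intro e
        simp only [M]
        rw [if_pos hc, mul_assoc, Finset.sum_mul]
      rw [Finset.sum_congr rfl fun e _ => h1 e, ← Finset.mul_sum, Finset.sum_comm]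
      have h2 : ∀ w : W, ∑ e, (if c ∘ ι w = e then (φ w : E) else 0) * M e d = M c d := by
        intro w
        rw [Finset.sum_eq_single (c ∘ ι w)]
        · rw [if_pos rfl]
          simp only [M]
          rw [if_pos (by rw [cont_comp, hc]), if_pos hc, mul_left_comm]
          congr 1
          rw [Finset.mul_sum, ← Equiv.sum_comp (Equiv.mulLeft w) (fun v : W =>
            if c ∘ ι v = d then (φ v : E) else 0)]
          refine Finset.sum_congr rfl fun v _ => ?_
          have h3 : (c ∘ ι w) ∘ ι v = d ↔ c ∘ ι (Equiv.mulLeft w v) = d := by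
            rw [Equiv.coe_mulLeft, map_mul]
            rfl
          have h4 : ((φ (Equiv.mulLeft w v) : Eˣ) : E) = (φ w : E) * (φ v : E) :=
            congrArg Units.val (map_mul φ w v)
          rw [if_congr h3 rfl rfl, h4, mul_ite, mul_zero]
        · intro e _ he
          rw [if_neg (fun h => he h.symm), zero_mul]
        · exact fun h => absurd (Finset.mem_univ _) h
      rw [Finset.sum_congr rfl fun w _ => h2 w, Finset.sum_const, nsmul_eq_mul,
        Finset.card_univ, ← Nat.card_eq_fintype_card, ← mul_assoc, inv_mul_cancel₀ hW, one_mul]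
    · have h1 : ∀ e, M c e * M e d = 0 := by
        intro e
        simp only [M]
        rw [if_neg hc, zero_mul]
      rw [Finset.sum_congr rfl fun e _ => h1 e, Finset.sum_const_zero]
      simp only [M]
      rw [if_neg hc]
  obtain ⟨m, hm⟩ := trace_nat M hM
  refine ⟨m, ?_⟩
  rw [← hm]
  unfold PP
  rw [coeff_smul, coeff_sum, smul_eq_mul, Finset.mul_sum, Matrix.trace]
  refine Finset.sum_congr rfl fun c _ => ?_
  rw [coeff_smul, mon_eq, coeff_monomial, Matrix.diag_apply]
  simp only [M]
  split_ifs with h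
  · rw [smul_eq_mul, mul_one]
  · rw [smul_zero, mul_zero]

omit [CharZero E] in
lemma PP_symm {W α : Type} [Group W] [Fintype W] [Fintype α] [DecidableEq α]
    (ι : W →* Perm α) (φ : W →* Eˣ) : (PP κ ι φ).IsSymmetric := by
  intro e
  unfold PP
  rw [map_smul, map_sum]
  congr 1
  refine Eq.trans (Finset.sum_congr rfl fun c _ => ?_)
    (Equiv.sum_comp (Equiv.arrowCongr (Equiv.refl α) e) _)
  have h1 : (Equiv.arrowCongr (Equiv.refl α) e) c = e ∘ c := rfl
  rw [h1, map_smul]
  have h2 : rename e (mon E c) = mon E (e ∘ c) := by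
    unfold mon
    rw [map_prod]
    refine Finset.prod_congr rfl fun i _ => ?_
    rw [rename_X]
    rfl
  rw [h2]
  congr 1
  refine Finset.sum_congr rfl fun w _ => ?_
  have h3 : c ∘ ι w = c ↔ (e ∘ c) ∘ ι w = e ∘ c := by
    constructor
    · intro h
      rw [Function.comp_assoc, h]
    · intro h
      funext x
      exact e.injective (congrFun h x)
  rw [if_congr h3 rfl rfl]

omit [CharZero E] in
lemma PP_hom {W α : Type} [Group W] [Fintype W] [Fintype α] [DecidableEq α]
    (ι : W →* Perm α) (φ : W →* Eˣ) : (PP κ ι φ).IsHomogeneous (Fintype.card α) := by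
  rw [← mem_homogeneousSubmodule]
  unfold PP
  refine Submodule.smul_mem _ _ (Submodule.sum_mem _ fun c _ => Submodule.smul_mem _ _ ?_)
  rw [mem_homogeneousSubmodule]
  unfold mon
  have := IsHomogeneous.prod (R := E) Finset.univ (fun i : α => X (c i)) (fun _ => 1)
    (fun i _ => isHomogeneous_X E (c i))
  simpa using this

/-- the characteristic is an integral polynomial in the elementary symmetric polynomials -/
theorem PP_mem {W α : Type} [Group W] [Fintype W] [Fintype α] [DecidableEq α]
    (ι : W →* Perm α) (φ : W →* Eˣ) :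
    PP κ ι φ ∈ Subring.closure (Set.range (fun k : ℕ => esymm κ E k)) := by
  choose m hm using coeff_PP κ ι φ
  let P₀ : MvPolynomial κ ℤ := ∑ a ∈ (PP κ ι φ).support, monomial a (m a : ℤ)
  have hinj : Function.Injective (MvPolynomial.map (σ := κ) (Int.castRingHom E)) :=
    MvPolynomial.map_injective _ Int.cast_injective
  have hP₀ : MvPolynomial.map (Int.castRingHom E) P₀ = PP κ ι φ := by
    rw [map_sum]
    conv_rhs => rw [← support_sum_monomial_coeff (PP κ ι φ)]
    refine Finset.sum_congr rfl fun a _ => ?_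
    rw [map_monomial, hm]
    simp
  have hsym : P₀.IsSymmetric := by
    intro e
    apply hinj
    rw [map_rename, hP₀]
    exact PP_symm κ ι φ e
  obtain ⟨Q, hQ⟩ := esymmAlgHom_surjective ℤ (σ := κ) (n := Fintype.card κ) le_rfl ⟨P₀, hsym⟩
  have hQ' : aeval (fun i : Fin (Fintype.card κ) => esymm κ ℤ (i + 1)) Q = P₀ := by
    rw [← esymmAlgHom_apply, hQ]
  rw [← hP₀, ← hQ']
  clear hQ hQ'
  induction Q using MvPolynomial.induction_on with
  | C a =>
    rw [aeval_C]
    have : MvPolynomial.map (Int.castRingHom E) ((algebraMap ℤ (MvPolynomial κ ℤ)) a) =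
        ((a : ℤ) : MvPolynomial κ E) := by simp
    rw [this]
    exact intCast_mem _ a
  | add p q hp hq =>
    rw [map_add, map_add]
    exact add_mem hp hq
  | mul_X p i hp =>
    rw [map_mul, map_mul, aeval_X, map_esymm]
    exact mul_mem hp (Subring.subset_closure ⟨_, rfl⟩)

end

section

variable {E : Type} [Field E] [CharZero E] {n : ℕ}

/-- integral combinations of characteristics of quadratic characters of subgroups -/
def Cmb (n : ℕ) (z : MvPolynomial (Fin n) E) : Prop :=
  ∃ (ι : Type) (_ : Fintype ι) (W : ι → Subgroup (Perm (Fin n))) (φ : ∀ i, W i →* Eˣ) (m : ι → ℤ),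
    (∀ i w, φ i w * φ i w = 1) ∧ z = ∑ i, (m i : E) • PP (Fin n) (W i).subtype (φ i)

omit [CharZero E] in
lemma Cmb.zero : Cmb n (0 : MvPolynomial (Fin n) E) :=
  ⟨Empty, inferInstance, fun e => e.elim, fun e => e.elim, fun e => e.elim, fun e => e.elim,
    by simp⟩

omit [CharZero E] in
lemma Cmb.add {z z' : MvPolynomial (Fin n) E} (h : Cmb n z) (h' : Cmb n z') : Cmb n (z + z') := by
  obtain ⟨ι, _, W, φ, m, h1, h2⟩ := h
  obtain ⟨ι', _, W', φ', m', h1', h2'⟩ := h'
  refine ⟨ι ⊕ ι', inferInstance, Sum.elim W W', fun i => match i with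
    | Sum.inl i => φ i
    | Sum.inr i => φ' i, Sum.elim m m', ?_, ?_⟩
  · rintro (i | i) w
    · exact h1 i w
    · exact h1' i w
  · rw [Fintype.sum_sum_type, h2, h2']
    rfl

omit [CharZero E] in
lemma Cmb.neg {z : MvPolynomial (Fin n) E} (h : Cmb n z) : Cmb n (-z) := by
  obtain ⟨ι, _, W, φ, m, h1, h2⟩ := h
  refine ⟨ι, inferInstance, W, φ, fun i => - m i, h1, ?_⟩
  rw [h2, ← Finset.sum_neg_distrib]
  refine Finset.sum_congr rfl fun i _ => ?_
  rw [Int.cast_neg, neg_smul]

lemma cmb_hom {z : MvPolynomial (Fin n) E}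
    (hz : z ∈ Subring.closure (Set.range (fun k : ℕ => esymm (Fin n) E k))) :
    Cmb n (homogeneousComponent n z) := by
  rw [Subring.mem_closure_iff] at hz
  induction hz using AddSubgroup.closure_induction with
  | mem z hz =>
    obtain ⟨l, hl, rfl⟩ := Submonoid.exists_list_of_mem_closure hz
    have hl' : ∃ l' : List ℕ, l = l'.map (esymm (Fin n) E) := by
      clear hz
      induction l with
      | nil => exact ⟨[], rfl⟩
      | cons a l ih =>
        obtain ⟨l', hl'⟩ := ih (fun y hy => hl y (List.mem_cons_of_mem _ hy))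
        obtain ⟨k, hk⟩ := hl a List.mem_cons_self
        exact ⟨k :: l', by rw [List.map_cons, ← hl', ← hk]⟩
    obtain ⟨l', rfl⟩ := hl'
    obtain ⟨W, _, _, α, _, _, ι, φ, h1, h2, h3, h4⟩ := exists_prod (E := E) (Fin n) l'
    have hh := PP_hom (Fin n) ι φ
    rw [h4, h3] at hh
    rw [homogeneousComponent_of_mem hh]
    split_ifs with h
    · obtain ⟨V, ψ, h5, h6⟩ := exists_subgroup (E := E) (Fin n) l' h.symm
      refine ⟨Unit, inferInstance, fun _ => V, fun _ => ψ, fun _ => 1, fun _ w => h5 w, ?_⟩
      rw [Fintype.sum_unique, h6, Int.cast_one, one_smul]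
    · exact Cmb.zero
  | zero =>
    rw [map_zero]
    exact Cmb.zero
  | add x y _ _ hx hy =>
    rw [map_add]
    exact hx.add hy
  | neg x _ hx =>
    rw [map_neg]
    exact hx.neg

/-- **For the symmetric group, all characters induced from linear characters of subgroups are
integral combinations of the characters induced from quadratic characters.** -/
theorem perm_rel (U : Subgroup (Perm (Fin n))) (χ : U →* Eˣ) :
    ∃ (ι : Type) (_ : Fintype ι) (W : ι → Subgroup (Perm (Fin n))) (φ : ∀ i, W i →* Eˣ)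
      (m : ι → ℤ), (∀ i w, φ i w * φ i w = 1) ∧
        ∀ g, ind U χ g = ∑ i, (m i : E) * ind (W i) (φ i) g := by
  have h1 := cmb_hom (PP_mem (Fin n) U.subtype χ)
  have h2 := PP_hom (Fin n) U.subtype χ
  rw [Fintype.card_fin] at h2
  rw [homogeneousComponent_of_mem h2, if_pos rfl] at h1
  obtain ⟨ι, _, W, φ, m, h3, h4⟩ := h1
  refine ⟨ι, inferInstance, W, φ, m, h3, ?_⟩
  have hclass : ∀ (V : Subgroup (Perm (Fin n))) (ψ : V →* Eˣ) (g x : Perm (Fin n)),
      ind V ψ (x⁻¹ * g * x) = ind V ψ g := by
    intro V ψ g x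
    unfold ind
    congr 1
    refine Eq.trans (Finset.sum_congr rfl fun y _ => ?_) (Equiv.sum_comp (Equiv.mulLeft x)
      (fun y => ext V ψ (y⁻¹ * g * y)))
    change ext V ψ (y⁻¹ * (x⁻¹ * g * x) * y) = ext V ψ ((x * y)⁻¹ * g * (x * y))
    rw [mul_inv_rev]
    simp only [mul_assoc]
  have key := Phi_inj (fun g => ind U χ g - ∑ i, (m i : E) * ind (W i) (φ i) g) (by
    intro g x
    simp only [hclass]) (by
    have hlin : Phi (fun g => ind U χ g - ∑ i, (m i : E) * ind (W i) (φ i) g) =
        Phi (ind U χ) - ∑ i, (m i : E) • Phi (ind (W i) (φ i)) := by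
      rw [Phi_eq, Phi_eq]
      simp_rw [Phi_eq, Finset.smul_sum]
      rw [Finset.sum_comm, ← Finset.sum_sub_distrib]
      refine Finset.sum_congr rfl fun c _ => ?_
      simp_rw [smul_smul]
      rw [← Finset.sum_smul, ← sub_smul]
      congr 1
      simp_rw [Finset.mul_sum]
      rw [Finset.sum_comm, ← Finset.sum_sub_distrib]
      refine Finset.sum_congr rfl fun w _ => ?_
      by_cases hw : c ∘ w = c
      · simp only [if_pos hw]
      · simp only [if_neg hw, mul_zero, Finset.sum_const_zero, sub_zero]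
    rw [hlin, Phi_ind, h4, Finset.smul_sum, sub_eq_zero]
    refine Finset.sum_congr rfl fun i _ => ?_
    rw [Phi_ind, smul_comm])
  intro g
  exact sub_eq_zero.1 (key g)

end

end Pool.Agent.V8H87.EB.SN
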