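import Pool.Agent.V8H87.EB.SN.Int
import Pool.Agent.V8H87.EB.Tow

/-!
# Galois groups isomorphic to symmetric groups
-/

set_option autoImplicit false

open scoped Classical

namespace Pool.Agent.V8H87.EB

open SN

/-- A finite group all of whose characters induced from linear characters of subgroups are integral
combinations of characters induced from quadratic characters (with values in any field). -/
def GoodGroup (Q : Type) [Group Q] [Fintype Q] : Prop :=
  ∀ (E : Type) [Field E] [CharZero E] (U : Subgroup Q) (χ : U →* Eˣ),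
    ∃ (ι : Type) (_ : Fintype ι) (W : ι → Subgroup Q) (φ : ∀ i, W i →* Eˣ) (m : ι → ℤ),
      (∀ i w, φ i w * φ i w = 1) ∧ ∀ g, ind U χ g = ∑ i, (m i : E) * ind (W i) (φ i) g

lemma goodGroup_perm (n : ℕ) : GoodGroup (Equiv.Perm (Fin n)) :=
  fun E _ _ U χ => perm_rel U χ

lemma GoodGroup.of_equiv {Q Q' : Type} [Group Q] [Fintype Q] [Group Q'] [Fintype Q']
    (e : Q ≃* Q') (h : GoodGroup Q') : GoodGroup Q := by
  intro E _ _ U χ
  have hU : U = (U.map e.toMonoidHom).comap e.toMonoidHom :=
    (Subgroup.comap_map_eq_self_of_injective e.injective U).symm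
  have hmem : ∀ y : U.map e.toMonoidHom, e.symm y ∈ U := by
    rintro ⟨y, hy⟩
    obtain ⟨x, hx, rfl⟩ := Subgroup.mem_map.1 hy
    change e.symm (e x) ∈ U
    rw [MulEquiv.symm_apply_apply]
    exact hx
  let χ' : U.map e.toMonoidHom →* Eˣ :=
    { toFun := fun y => χ ⟨e.symm y, hmem y⟩
      map_one' := by
        have h1 : (⟨e.symm ((1 : U.map e.toMonoidHom) : Q'), hmem 1⟩ : U) = 1 :=
          Subtype.ext (map_one e.symm)
        rw [h1, map_one]
      map_mul' := by
        intro a b
        rw [← map_mul]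
        congr 1
        exact Subtype.ext (map_mul e.symm _ _) }
  obtain ⟨ι, _, W, φ, m, h1, h2⟩ := h E (U.map e.toMonoidHom) χ'
  refine ⟨ι, inferInstance, fun i => (W i).comap e.toMonoidHom, fun i => (φ i).comp
    ((e.toMonoidHom.comp ((W i).comap e.toMonoidHom).subtype).codRestrict (W i)
      (fun x => x.2)), m, fun i w => h1 i _, fun g => ?_⟩
  rw [ind_infl e.toMonoidHom e.surjective (U.map e.toMonoidHom) χ' U χ hU (by
    intro x hx hx'
    change χ ⟨x, hx⟩ = χ ⟨e.symm (e x), _⟩
    congr 1
    exact Subtype.ext (e.symm_apply_apply x).symm) g, h2]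
  refine Finset.sum_congr rfl fun i _ => ?_
  congr 1
  exact (ind_infl e.toMonoidHom e.surjective (W i) (φ i) _ _ rfl (fun _ _ _ => rfl) g).symm

/-- Q1 for all abelian extensions between `k` and `N` if the Galois group is good -/
theorem Borel.q1_of_good {k N : Type} [Field k] [Field N] [NumberField k] [NumberField N]
    [Algebra k N] [FiniteDimensional k N] {w : ℕ} (D : Borel k N w) (h : GoodGroup (N ≃ₐ[k] N))
    (U W : Subgroup (N ≃ₐ[k] N)) : Q1 D U W := by
  intro E _ _ χ _
  obtain ⟨ι, _, V, φ, m, h1, h2⟩ := h E U χ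
  exact D.closure E V φ m (fun i => D.comp_quad E (V i) (φ i) (h1 i)) U χ h2

end Pool.Agent.V8H87.EB
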