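import Pool.Agent.V8H87.EB.SN.Inj
import Pool.Agent.V8H87.EB.Defs

/-!
# The characteristic of a character induced to the symmetric group
-/

set_option autoImplicit false

open scoped Classical

namespace Pool.Agent.V8H87.EB.SN

open Equiv Equiv.Perm Finset MvPolynomial

section

variable {E : Type} [Field E] [CharZero E]

/-- the generating polynomial of a character `φ` of a group `W` of permutations -/
noncomputable def PP (κ : Type) [Fintype κ] {W α : Type} [Group W] [Fintype W] [Fintype α]
    [DecidableEq α] (ι : W →* Perm α) (φ : W →* Eˣ) : MvPolynomial κ E :=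
  (Nat.card W : E)⁻¹ • ∑ c : α → κ, (∑ w : W, if c ∘ ι w = c then (φ w : E) else 0) • mon E c

variable (κ : Type) [Fintype κ]

omit [CharZero E] in
lemma PP_congr {W W' α : Type} [Group W] [Fintype W] [Group W'] [Fintype W'] [Fintype α]
    [DecidableEq α] (e : W ≃* W') (ι : W →* Perm α) (φ : W →* Eˣ) (ι' : W' →* Perm α) (φ' : W' →* Eˣ)
    (h1 : ∀ w, ι' (e w) = ι w) (h2 : ∀ w, φ' (e w) = φ w) : PP κ ι φ = PP κ ι' φ' := by
  unfold PP
  rw [Nat.card_congr e.toEquiv]
  congr 1
  refine Finset.sum_congr rfl fun c _ => ?_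
  congr 1
  rw [← Equiv.sum_comp e.toEquiv]
  refine Finset.sum_congr rfl fun w _ => ?_
  change _ = if c ∘ ι' (e w) = c then (φ' (e w) : E) else 0
  rw [h1, h2]

omit [CharZero E] in
lemma PP_equiv {W α β : Type} [Group W] [Fintype W] [Fintype α] [Fintype β] [DecidableEq α]
    [DecidableEq β] (e : α ≃ β)
    (ι : W →* Perm α) (φ : W →* Eˣ) :
    PP κ ((Equiv.permCongrHom e).toMonoidHom.comp ι) φ = PP κ ι φ := by
  unfold PP
  congr 1
  rw [← Equiv.sum_comp (Equiv.arrowCongr e (Equiv.refl κ))]
  refine Finset.sum_congr rfl fun c _ => ?_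
  have h1 : (Equiv.arrowCongr e (Equiv.refl κ)) c = c ∘ e.symm := rfl
  rw [h1]
  congr 1
  · refine Finset.sum_congr rfl fun w _ => ?_
    have h2 : (c ∘ e.symm) ∘ ((Equiv.permCongrHom e).toMonoidHom.comp ι) w = c ∘ e.symm ↔
        c ∘ ι w = c := by
      have h3 : ∀ x, ((Equiv.permCongrHom e).toMonoidHom.comp ι) w x = e (ι w (e.symm x)) :=
        fun x => rfl
      constructor
      · intro h
        funext x
        have := congrFun h (e x)
        simp only [Function.comp_apply, h3, Equiv.symm_apply_apply] at this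
        exact this
      · intro h
        funext x
        have := congrFun h (e.symm x)
        simp only [Function.comp_apply, h3, Equiv.symm_apply_apply] at this ⊢
        exact this
    rw [if_congr h2 rfl rfl]
  · unfold mon
    rw [← Equiv.prod_comp e]
    refine Finset.prod_congr rfl fun i _ => ?_
    simp

omit [CharZero E] in
lemma PP_mul {W W' α β : Type} [Group W] [Fintype W] [Group W'] [Fintype W'] [Fintype α]
    [Fintype β] [DecidableEq α] [DecidableEq β] (ι : W →* Perm α) (φ : W →* Eˣ) (ι' : W' →* Perm β) (φ' : W' →* Eˣ) :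
    PP κ ((sumCongrHom α β).comp (ι.prodMap ι')) (φ.coprod φ') = PP κ ι φ * PP κ ι' φ' := by
  unfold PP
  rw [Nat.card_prod, Nat.cast_mul, mul_inv, smul_mul_smul_comm]
  congr 1
  rw [← Equiv.sum_comp (Equiv.sumArrowEquivProdArrow α β κ).symm, Fintype.sum_prod_type,
    Finset.sum_mul_sum]
  refine Finset.sum_congr rfl fun c _ => Finset.sum_congr rfl fun d _ => ?_
  have h1 : (Equiv.sumArrowEquivProdArrow α β κ).symm (c, d) = Sum.elim c d := rfl
  rw [h1, smul_mul_smul_comm]
  congr 1
  · rw [Fintype.sum_prod_type, Finset.sum_mul_sum]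
    refine Finset.sum_congr rfl fun w _ => Finset.sum_congr rfl fun w' _ => ?_
    have h2 : Sum.elim c d ∘ ((sumCongrHom α β).comp (ι.prodMap ι')) (w, w') = Sum.elim c d ↔
        c ∘ ι w = c ∧ d ∘ ι' w' = d := by
      constructor
      · intro h
        exact ⟨funext fun x => congrFun h (Sum.inl x), funext fun x => congrFun h (Sum.inr x)⟩
      · rintro ⟨h, h'⟩
        funext x
        rcases x with x | x
        · exact congrFun h x
        · exact congrFun h' x
    have h3 : ((φ.coprod φ') (w, w') : E) = (φ w : E) * (φ' w' : E) := by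
      rw [MonoidHom.coprod_apply, Units.val_mul]
    rw [if_congr h2 rfl rfl, h3]
    by_cases hc : c ∘ ι w = c <;> by_cases hd : d ∘ ι' w' = d <;> simp [hc, hd]
  · unfold mon
    rw [Fintype.prod_sum_type]
    rfl

/-- the sign character with values in `E` -/
noncomputable def sgn (E : Type) [Field E] (k : ℕ) : Perm (Fin k) →* Eˣ :=
  (Units.map (Int.castRingHom E : ℤ →* E)).comp sign

omit [CharZero E] in
lemma sgn_sq (k : ℕ) (w : Perm (Fin k)) : sgn E k w * sgn E k w = 1 := by
  unfold sgn
  rw [MonoidHom.comp_apply, ← map_mul, Int.units_mul_self, map_one]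

lemma sum_sgn (k : ℕ) (c : Fin k → κ) :
    (∑ w : Perm (Fin k), if c ∘ w = c then (sgn E k w : E) else 0) =
      if Function.Injective c then 1 else 0 := by
  by_cases hc : Function.Injective c
  · rw [if_pos hc, Finset.sum_eq_single 1]
    · rw [if_pos (by rfl), map_one, Units.val_one]
    · intro w _ hw
      rw [if_neg]
      intro h
      apply hw
      ext x
      rw [hc (congrFun h x)]
      rfl
    · exact fun h => absurd (Finset.mem_univ _) h
  · rw [if_neg hc]
    unfold Function.Injective at hc
    push Not at hc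
    obtain ⟨i, j, hij, hne⟩ := hc
    have hs : ∀ x, c (Equiv.swap i j x) = c x := by
      intro x
      rw [Equiv.swap_apply_def]
      split_ifs with h1 h2
      · rw [h1, hij]
      · rw [h2, hij]
      · rfl
    have h0 := Equiv.sum_comp (Equiv.mulRight (Equiv.swap i j))
      (fun w : Perm (Fin k) => if c ∘ w = c then (sgn E k w : E) else 0)
    have h1 : ∀ w : Perm (Fin k),
        (fun w : Perm (Fin k) => if c ∘ w = c then (sgn E k w : E) else 0)
          (Equiv.mulRight (Equiv.swap i j) w) = - (if c ∘ w = c then (sgn E k w : E) else 0) := by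
      intro w
      have h2 : c ∘ ⇑(w * Equiv.swap i j) = c ↔ c ∘ w = c := by
        constructor
        · intro h
          funext x
          have := congrFun h (Equiv.swap i j x)
          simp only [Function.comp_apply, Perm.mul_apply, Equiv.swap_apply_self, hs] at this
          exact this
        · intro h
          funext x
          have := congrFun h (Equiv.swap i j x)
          simp only [Function.comp_apply, Perm.mul_apply, hs] at this ⊢
          exact this
      change (if c ∘ ⇑(w * Equiv.swap i j) = c then (sgn E k (w * Equiv.swap i j) : E) else 0) = _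
      rw [if_congr h2 rfl rfl]
      have h3 : (sgn E k (w * Equiv.swap i j) : E) = - (sgn E k w : E) := by
        rw [map_mul, Units.val_mul]
        have : (sgn E k (Equiv.swap i j) : E) = -1 := by
          unfold sgn
          rw [MonoidHom.comp_apply, sign_swap hne]
          simp
        rw [this]
        ring
      rw [h3]
      split_ifs <;> simp
    rw [Finset.sum_congr rfl fun w _ => h1 w, Finset.sum_neg_distrib] at h0
    have h4 : (2 : E) * (∑ w : Perm (Fin k), if c ∘ w = c then (sgn E k w : E) else 0) = 0 := by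
      linear_combination -h0
    exact (mul_eq_zero.1 h4).resolve_left two_ne_zero

lemma card_inj (k : ℕ) (t : Finset κ) (ht : t.card = k) :
    (univ.filter (fun c : Fin k → κ => Function.Injective c ∧ univ.image c = t)).card = k.factorial := by
  have h1 : Fintype.card (Fin k ≃ t) = k.factorial := by
    have e : Fin k ≃ t := Fintype.equivOfCardEq (by rw [Fintype.card_fin, Fintype.card_coe, ht])
    rw [Fintype.card_equiv e, Fintype.card_fin]
  rw [← h1, ← Fintype.card_subtype]
  symm
  refine Fintype.card_of_bijective (f := fun e : Fin k ≃ t =>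
    (⟨fun i => (e i : κ), ?_⟩ : {c : Fin k → κ // Function.Injective c ∧ univ.image c = t})) ?_
  · constructor
    · intro i j hij
      exact e.injective (Subtype.ext hij)
    · ext x
      rw [Finset.mem_image]
      constructor
      · rintro ⟨i, -, rfl⟩
        exact (e i).2
      · intro hx
        exact ⟨e.symm ⟨x, hx⟩, Finset.mem_univ _, by simp⟩
  · constructor
    · intro e e' h
      ext i
      exact congrFun (congrArg Subtype.val h) i
    · rintro ⟨c, hc, hct⟩
      have hm : ∀ i, c i ∈ t := by
        intro i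
        rw [← hct]
        exact Finset.mem_image_of_mem _ (Finset.mem_univ _)
      refine ⟨Equiv.ofBijective (fun i => ⟨c i, hm i⟩) ⟨?_, ?_⟩, ?_⟩
      · intro i j hij
        exact hc (congrArg Subtype.val hij)
      · rintro ⟨x, hx⟩
        rw [← hct, Finset.mem_image] at hx
        obtain ⟨i, -, hi⟩ := hx
        exact ⟨i, Subtype.ext hi⟩
      · rfl

/-- `e_k` is the characteristic of the sign character of `S_k` -/
theorem PP_sgn (k : ℕ) : PP κ (MonoidHom.id (Perm (Fin k))) (sgn E k) = esymm κ E k := by
  unfold PP esymm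
  have h0 : ∀ c : Fin k → κ, (∑ w : Perm (Fin k),
      if c ∘ (MonoidHom.id (Perm (Fin k))) w = c then (sgn E k w : E) else 0) • mon E c =
      if Function.Injective c then mon E c else 0 := by
    intro c
    have := sum_sgn (E := E) κ k c
    simp only [MonoidHom.id_apply]
    rw [this]
    split_ifs <;> simp
  have h00 : ∑ c : Fin k → κ, (if Function.Injective c then mon E c else 0) =
      ∑ c ∈ univ.filter (fun c : Fin k → κ => Function.Injective c), mon E c := by
    rw [Finset.sum_filter]
  rw [Finset.sum_congr rfl fun c _ => h0 c, h00]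
  have h1 : ∑ c ∈ univ.filter (fun c : Fin k → κ => Function.Injective c), mon E c =
      ∑ t ∈ powersetCard k (univ : Finset κ), ∑ c ∈ (univ.filter
        (fun c : Fin k → κ => Function.Injective c)).filter (fun c => univ.image c = t),
          mon E c := by
    refine (Finset.sum_fiberwise_of_maps_to ?_ _).symm
    intro c hc
    rw [Finset.mem_powersetCard]
    exact ⟨Finset.subset_univ _, by
      rw [Finset.card_image_of_injective _ (Finset.mem_filter.1 hc).2, Finset.card_univ,
        Fintype.card_fin]⟩
  rw [h1, Finset.smul_sum]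
  refine Finset.sum_congr rfl fun t ht => ?_
  have htk := (Finset.mem_powersetCard.1 ht).2
  have h2 : ∀ c ∈ (univ.filter (fun c : Fin k → κ => Function.Injective c)).filter
      (fun c => univ.image c = t), mon E c = ∏ i ∈ t, X i := by
    intro c hc
    rw [Finset.mem_filter, Finset.mem_filter] at hc
    rw [← hc.2, Finset.prod_image (fun x _ y _ h => hc.1.2 h)]
    rfl
  rw [Finset.sum_congr rfl h2, Finset.sum_const, Finset.filter_filter, card_inj κ k t htk,
    ← Nat.cast_smul_eq_nsmul E, smul_smul, Nat.card_perm, Nat.card_eq_fintype_card,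
    Fintype.card_fin, inv_mul_cancel₀ (Nat.cast_ne_zero.2 (Nat.factorial_ne_zero k)), one_smul]

/-- products of elementary symmetric polynomials -/
theorem exists_prod (l : List ℕ) : ∃ (W : Type) (_ : Group W) (_ : Fintype W) (α : Type)
    (_ : Fintype α) (_ : DecidableEq α) (ι : W →* Perm α) (φ : W →* Eˣ), Function.Injective ι ∧
      (∀ w, φ w * φ w = 1) ∧ Fintype.card α = l.sum ∧ PP κ ι φ = (l.map (esymm κ E)).prod := by
  induction l with
  | nil =>
    refine ⟨Perm (Fin 0), inferInstance, inferInstance, Fin 0, inferInstance, inferInstance, MonoidHom.id _, sgn E 0,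
      fun _ _ h => h, sgn_sq 0, by simp, ?_⟩
    rw [PP_sgn]
    simp [esymm_zero]
  | cons k l ih =>
    obtain ⟨W, _, _, α, _, _, ι, φ, h1, h2, h3, h4⟩ := ih
    refine ⟨Perm (Fin k) × W, inferInstance, inferInstance, Fin k ⊕ α, inferInstance, inferInstance,
      (sumCongrHom (Fin k) α).comp ((MonoidHom.id _).prodMap ι), (sgn E k).coprod φ, ?_, ?_, ?_,
      ?_⟩
    · intro x y hxy
      have h5 := sumCongrHom_injective hxy
      rcases x with ⟨x, x'⟩
      rcases y with ⟨y, y'⟩
      have h6 := congrArg Prod.fst h5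
      have h7 := congrArg Prod.snd h5
      exact Prod.ext h6 (h1 h7)
    · rintro ⟨x, y⟩
      rw [MonoidHom.coprod_apply, mul_mul_mul_comm, sgn_sq, h2, one_mul]
    · rw [Fintype.card_sum, Fintype.card_fin, h3, List.sum_cons]
    · rw [PP_mul, PP_sgn, h4, List.map_cons, List.prod_cons]

end

section

variable {E : Type} [Field E] [CharZero E] {n : ℕ}

omit [CharZero E] in
lemma PP_range (κ : Type) [Fintype κ] {W α : Type} [Group W] [Fintype W] [Fintype α]
    [DecidableEq α] (ι : W →* Perm α) (hι : Function.Injective ι) (φ : W →* Eˣ) (V : Subgroup (Perm α))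
    [Fintype V] (hV : ι.range = V) :
    ∃ φ' : V →* Eˣ, (∀ x, ∃ w, φ' x = φ w) ∧ PP κ V.subtype φ' = PP κ ι φ := by
  let f : W ≃* V := (MonoidHom.ofInjective hι).trans (MulEquiv.subgroupCongr hV)
  refine ⟨φ.comp f.symm.toMonoidHom, fun x => ⟨f.symm x, rfl⟩, ?_⟩
  symm
  refine PP_congr κ f _ _ _ _ (fun w => rfl) (fun w => ?_)
  change φ (f.symm (f w)) = φ w
  rw [MulEquiv.symm_apply_apply]

/-- products of elementary symmetric polynomials of degree `n` -/
theorem exists_subgroup (κ : Type) [Fintype κ] (l : List ℕ) (hl : l.sum = n) :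
    ∃ (W : Subgroup (Perm (Fin n))) (φ : W →* Eˣ),
      (∀ w, φ w * φ w = 1) ∧ PP κ W.subtype φ = (l.map (esymm κ E)).prod := by
  obtain ⟨W, _, _, α, _, _, ι, φ, h1, h2, h3, h4⟩ := exists_prod (E := E) κ l
  have he : Nonempty (α ≃ Fin n) := ⟨Fintype.equivOfCardEq (by rw [h3, hl, Fintype.card_fin])⟩
  obtain ⟨e⟩ := he
  have hι' : Function.Injective ((Equiv.permCongrHom e).toMonoidHom.comp ι) :=
    (Equiv.permCongrHom e).injective.comp h1
  obtain ⟨V, hV⟩ : ∃ V, ((Equiv.permCongrHom e).toMonoidHom.comp ι).range = V := ⟨_, rfl⟩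
  obtain ⟨φ', h5, h6⟩ := PP_range κ _ hι' φ V hV
  refine ⟨V, φ', fun w => ?_, ?_⟩
  · obtain ⟨w', hw'⟩ := h5 w
    rw [hw', h2]
  · rw [h6, PP_equiv, h4]

theorem Phi_ind (U : Subgroup (Perm (Fin n))) (χ : U →* Eˣ) :
    Phi (ind U χ) = (n.factorial : E) • PP (Fin n) U.subtype χ := by
  have hbase : ∀ x : Perm (Fin n), (∑ c : Fin n → Fin n, (∑ w : Perm (Fin n),
      if c ∘ w = c then ext U χ (x⁻¹ * w * x) else 0) • mon E c) =
      ∑ c : Fin n → Fin n, (∑ w : Perm (Fin n), if c ∘ w = c then ext U χ w else 0) • mon E c := by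
    intro x
    refine Eq.trans (Finset.sum_congr rfl fun c _ => ?_) (Equiv.sum_comp (Equiv.arrowCongr x⁻¹
      (Equiv.refl (Fin n))) (fun c : Fin n → Fin n => (∑ w : Perm (Fin n),
        if c ∘ w = c then ext U χ w else 0) • mon E c))
    have h1 : (Equiv.arrowCongr x⁻¹ (Equiv.refl (Fin n))) c = c ∘ x := by
      funext i
      rfl
    rw [h1]
    congr 1
    · refine Eq.trans ?_ (Equiv.sum_comp (MulAut.conj x⁻¹).toEquiv
        (fun w : Perm (Fin n) => if (c ∘ x) ∘ w = c ∘ x then ext U χ w else 0))
      refine Finset.sum_congr rfl fun w _ => ?_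
      have h2 : (MulAut.conj x⁻¹).toEquiv w = x⁻¹ * w * x := by
        change x⁻¹ * w * x⁻¹⁻¹ = _
        rw [inv_inv]
      rw [h2]
      have h3 : c ∘ w = c ↔ (c ∘ x) ∘ ⇑(x⁻¹ * w * x) = c ∘ x := by
        constructor
        · intro h
          funext i
          have := congrFun h (x i)
          simpa using this
        · intro h
          funext i
          have := congrFun h (x⁻¹ i)
          simpa using this
      rw [if_congr h3 rfl rfl]
    · unfold mon
      rw [← Equiv.prod_comp x]
      rfl
  have hU : ∀ c : Fin n → Fin n, (∑ w : Perm (Fin n), if c ∘ w = c then ext U χ w else 0) =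
      ∑ u : U, if c ∘ U.subtype u = c then (χ u : E) else 0 := by
    intro c
    have h1 : ∑ w : Perm (Fin n), (if c ∘ w = c then ext U χ w else 0) =
        ∑ w ∈ univ.filter (fun w => w ∈ U), (if c ∘ w = c then ext U χ w else 0) := by
      rw [Finset.sum_filter]
      refine Finset.sum_congr rfl fun w _ => ?_
      by_cases hw : w ∈ U
      · rw [if_pos hw]
      · rw [if_neg hw]
        unfold ext
        rw [dif_neg hw]
        simp
    rw [h1, Finset.sum_subtype (univ.filter (fun w => w ∈ U)) (p := fun w => w ∈ U)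
      (fun w => by simp)]
    refine Finset.sum_congr rfl fun u _ => ?_
    have h2 : ext U χ (u : Perm (Fin n)) = (χ u : E) := by
      unfold ext
      rw [dif_pos u.2]
    rw [h2]
    rfl
  rw [Phi_eq]
  have h1 : ∀ c : Fin n → Fin n, (∑ w : Perm (Fin n), if c ∘ w = c then ind U χ w else 0) •
      mon E c = (Nat.card U : E)⁻¹ • ∑ x : Perm (Fin n), (∑ w : Perm (Fin n),
        if c ∘ w = c then ext U χ (x⁻¹ * w * x) else 0) • mon E c := by
    intro c
    rw [← Finset.sum_smul, smul_smul]
    congr 1
    rw [Finset.sum_comm, Finset.mul_sum]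
    refine Finset.sum_congr rfl fun w _ => ?_
    unfold ind
    by_cases hw : c ∘ w = c
    · simp only [if_pos hw]
    · simp only [if_neg hw, Finset.sum_const_zero, mul_zero]
  rw [Finset.sum_congr rfl fun c _ => h1 c, ← Finset.smul_sum, Finset.sum_comm,
    Finset.sum_congr rfl fun x _ => hbase x, Finset.sum_const, Finset.card_univ,
    Fintype.card_perm, Fintype.card_fin, ← Nat.cast_smul_eq_nsmul E, smul_comm]
  congr 1
  unfold PP
  congr 1
  refine Finset.sum_congr rfl fun c _ => ?_
  rw [hU]
  congr 1
  exact Finset.sum_congr (Finset.ext fun _ => by simp) (fun _ _ => by split_ifs <;> rfl)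

end

end Pool.Agent.V8H87.EB.SN
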